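import Mathlib

set_option autoImplicit false

/-!
# The divisor bound `d(n) ≪_ε n^ε`.
-/

namespace Pool.Agent.H56.DivBound

/-- The divisor bound: for every `ε > 0` there is `C > 0` with `d(n) ≤ C n^ε` for all `n ≠ 0`. -/
theorem divisors_card_le (ε : ℝ) (hε : 0 < ε) :
    ∃ C : ℝ, 0 < C ∧ ∀ n : ℕ, n ≠ 0 → (n.divisors.card : ℝ) ≤ C * (n : ℝ) ^ ε := by
  classical
  set K : ℝ := max 1 (1 / (ε * Real.log 2)) with hK
  have hlog2 : 0 < Real.log 2 := Real.log_pos (by norm_num)
  have hK1 : 1 ≤ K := le_max_left _ _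
  have hKε : 1 ≤ K * (ε * Real.log 2) := by
    have h1 : 1 / (ε * Real.log 2) ≤ K := le_max_right _ _
    have h2 : 0 < ε * Real.log 2 := mul_pos hε hlog2
    rwa [div_le_iff₀ h2] at h1
  -- threshold
  obtain ⟨P, hP⟩ := exists_nat_gt ((2 : ℝ) ^ (1 / ε))
  refine ⟨K ^ P, by positivity, ?_⟩
  intro n hn
  -- local bound
  have hloc : ∀ p ∈ n.primeFactors, ((n.factorization p + 1 : ℕ) : ℝ) ≤
      (if p < P then K else 1) * ((p : ℝ) ^ (n.factorization p)) ^ ε := by
    intro p hp
    have hpp : p.Prime := Nat.prime_of_mem_primeFactors hp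
    set v := n.factorization p with hv
    have hp0 : (0 : ℝ) ≤ p := by positivity
    have hp2 : (2 : ℝ) ≤ p := by exact_mod_cast hpp.two_le
    have hrw : ((p : ℝ) ^ v) ^ ε = ((p : ℝ) ^ ε) ^ v := by
      rw [← Real.rpow_natCast, ← Real.rpow_mul hp0, mul_comm, Real.rpow_mul hp0,
        Real.rpow_natCast]
    rw [hrw]
    split_ifs with hlt
    · -- small prime
      have h1 : (1 : ℝ) + ε * Real.log 2 ≤ (p : ℝ) ^ ε := by
        calc (1 : ℝ) + ε * Real.log 2 ≤ Real.exp (ε * Real.log 2) := by
              have := Real.add_one_le_exp (ε * Real.log 2); linarith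
          _ = (2 : ℝ) ^ ε := by
              rw [Real.rpow_def_of_pos (by norm_num), mul_comm]
          _ ≤ (p : ℝ) ^ ε := Real.rpow_le_rpow (by norm_num) hp2 hε.le
      have h2 : (1 : ℝ) + v * (ε * Real.log 2) ≤ ((p : ℝ) ^ ε) ^ v := by
        calc (1 : ℝ) + v * (ε * Real.log 2) ≤ (1 + ε * Real.log 2) ^ v := by
              have := one_add_mul_le_pow (a := ε * Real.log 2)
                (by have := mul_pos hε hlog2; linarith) v
              exact this
          _ ≤ ((p : ℝ) ^ ε) ^ v := by
              apply pow_le_pow_left₀ _ h1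
              have := mul_pos hε hlog2; linarith
      calc ((v + 1 : ℕ) : ℝ) = (v : ℝ) * 1 + 1 := by push_cast; ring
        _ ≤ (v : ℝ) * (K * (ε * Real.log 2)) + K := by
            have := mul_le_mul_of_nonneg_left hKε (Nat.cast_nonneg (α := ℝ) v)
            linarith
        _ = K * (1 + v * (ε * Real.log 2)) := by ring
        _ ≤ K * ((p : ℝ) ^ ε) ^ v := by
            apply mul_le_mul_of_nonneg_left h2; linarith
    · -- large prime
      have hpP : (2 : ℝ) ^ (1 / ε) ≤ p := by
        have : (P : ℝ) ≤ p := by exact_mod_cast not_lt.mp hlt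
        linarith
      have h1 : (2 : ℝ) ≤ (p : ℝ) ^ ε := by
        calc (2 : ℝ) = ((2 : ℝ) ^ (1 / ε)) ^ ε := by
              rw [← Real.rpow_mul (by norm_num)]
              rw [one_div_mul_cancel hε.ne']
              simp
          _ ≤ (p : ℝ) ^ ε := Real.rpow_le_rpow (by positivity) hpP hε.le
      have h2 : ((v + 1 : ℕ) : ℝ) ≤ (2 : ℝ) ^ v := by
        exact_mod_cast (Nat.lt_two_pow_self (n := v))
      calc ((v + 1 : ℕ) : ℝ) ≤ (2 : ℝ) ^ v := h2
        _ ≤ ((p : ℝ) ^ ε) ^ v := pow_le_pow_left₀ (by norm_num) h1 v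
        _ = 1 * ((p : ℝ) ^ ε) ^ v := by ring
  -- global
  have hcard : (n.divisors.card : ℝ) = ∏ p ∈ n.primeFactors, ((n.factorization p + 1 : ℕ) : ℝ) := by
    rw [Nat.card_divisors hn]
    push_cast
    rfl
  have hn' : (n : ℝ) ^ ε = ∏ p ∈ n.primeFactors, ((p : ℝ) ^ (n.factorization p)) ^ ε := by
    rw [Real.finsetProd_rpow _ _ (fun p _ => by positivity)]
    congr 1
    have := Nat.prod_factorization_pow_eq_self hn
    conv_lhs => rw [← this]
    rw [Nat.prod_factorization_eq_prod_primeFactors]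
    push_cast
    rfl
  rw [hcard, hn']
  calc ∏ p ∈ n.primeFactors, ((n.factorization p + 1 : ℕ) : ℝ)
      ≤ ∏ p ∈ n.primeFactors, ((if p < P then K else 1) * ((p : ℝ) ^ (n.factorization p)) ^ ε) :=
        Finset.prod_le_prod (fun p _ => by positivity) hloc
    _ = (∏ p ∈ n.primeFactors, (if p < P then K else 1)) *
        ∏ p ∈ n.primeFactors, ((p : ℝ) ^ (n.factorization p)) ^ ε := Finset.prod_mul_distrib
    _ ≤ K ^ P * ∏ p ∈ n.primeFactors, ((p : ℝ) ^ (n.factorization p)) ^ ε := by
        apply mul_le_mul_of_nonneg_right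
        · rw [Finset.prod_ite, Finset.prod_const_one, mul_one, Finset.prod_const]
          apply pow_le_pow_right₀ hK1
          calc (n.primeFactors.filter (fun p => p < P)).card ≤ (Finset.range P).card := by
                apply Finset.card_le_card
                intro p hp
                rw [Finset.mem_filter] at hp
                exact Finset.mem_range.mpr hp.2
            _ = P := Finset.card_range P
        · exact Finset.prod_nonneg (fun p _ => by positivity)

end Pool.Agent.H56.DivBound
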