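import Mathlib

set_option autoImplicit false

/-!
# Uniqueness up to units of a factor of `(x - 1) - ω` of given norm in `ℤ[ω]`.
-/

namespace Pool.Agent.H56.EisMult

theorem units_cases (s t : ℤ) (h : s ^ 2 - s * t + t ^ 2 = 1) :
    (s = 1 ∧ t = 0) ∨ (s = -1 ∧ t = 0) ∨ (s = 0 ∧ t = 1) ∨ (s = 0 ∧ t = -1) ∨
    (s = 1 ∧ t = 1) ∨ (s = -1 ∧ t = -1) := by
  have hs1 : s ≤ 1 := by nlinarith [sq_nonneg (2 * t - s), sq_nonneg (s - 1)]
  have hs2 : -1 ≤ s := by nlinarith [sq_nonneg (2 * t - s), sq_nonneg (s + 1)]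
  have ht1 : t ≤ 1 := by nlinarith [sq_nonneg (2 * s - t), sq_nonneg (t - 1)]
  have ht2 : -1 ≤ t := by nlinarith [sq_nonneg (2 * s - t), sq_nonneg (t + 1)]
  interval_cases s <;> interval_cases t <;> simp_all

/-- Two factorisations `z w̄ = z' w̄' = (x - 1) - ω` in `ℤ[ω]` with `N z = N z'` have
`z' = (s + t ω) z` for a unit `s + t ω`. -/
theorem mult_unit (a b c d a' b' c' d' x n : ℤ) (hn : 0 < n)
    (h1 : a ^ 2 - a * b + b ^ 2 = n) (h1' : a' ^ 2 - a' * b' + b' ^ 2 = n)
    (h2 : a * d - b * c = 1) (h2' : a' * d' - b' * c' = 1)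
    (h3 : (a - b) * c + b * d = x) (h3' : (a' - b') * c' + b' * d' = x) :
    ∃ s t : ℤ, s ^ 2 - s * t + t ^ 2 = 1 ∧ a' = a * s - b * t ∧ b' = a * t + b * s - b * t := by
  have e1 : a + b * (x - 1) = n * d := by
    linear_combination (-(a - b)) * h2 - b * h3 + d * h1
  have e1' : a' + b' * (x - 1) = n * d' := by
    linear_combination (-(a' - b')) * h2' - b' * h3' + d' * h1'
  have hm : x ^ 2 - x + 1 = n * (c ^ 2 - c * d + d ^ 2) := by
    rw [← h1, ← h3]
    linear_combination (-(1 + (a * d - b * c) - ((a - b) * c + b * d))) * h2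
  set t : ℤ := d * b' - d' * b with ht
  set s : ℤ := n * d * d' - d * b' * (x - 1) - b * d' * (x - 1) - d' * b +
    b * b' * (c ^ 2 - c * d + d ^ 2) with hs
  have hT : a * b' - a' * b = n * t := by
    rw [ht]; linear_combination b' * e1 - b * e1'
  have hX : a * a' + b * b' - a' * b = n * s := by
    rw [hs]
    linear_combination a' * e1 + (n * d - b * (x - 1)) * e1' - b * e1' + b * b' * hm
  have hn' : n ≠ 0 := hn.ne'
  refine ⟨s, t, ?_, ?_, ?_⟩
  · have h : n ^ 2 * (s ^ 2 - s * t + t ^ 2) = n ^ 2 * 1 := by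
      have : (n * s) ^ 2 - (n * s) * (n * t) + (n * t) ^ 2 = n * n := by
        rw [← hX, ← hT]
        linear_combination (a' ^ 2 - a' * b' + b' ^ 2) * h1 + n * h1'
      linear_combination this
    exact mul_left_cancel₀ (pow_ne_zero 2 hn') h
  · have h : n * a' = n * (a * s - b * t) := by
      linear_combination (-a') * h1 + a * hX - b * hT
    exact mul_left_cancel₀ hn' h
  · have h : n * b' = n * (a * t + b * s - b * t) := by
      linear_combination (-b') * h1 + b * hX + (a - b) * hT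
    exact mul_left_cancel₀ hn' h

/-- Six-case version. -/
theorem mult_cases (a b c d a' b' c' d' x n : ℤ) (hn : 0 < n)
    (h1 : a ^ 2 - a * b + b ^ 2 = n) (h1' : a' ^ 2 - a' * b' + b' ^ 2 = n)
    (h2 : a * d - b * c = 1) (h2' : a' * d' - b' * c' = 1)
    (h3 : (a - b) * c + b * d = x) (h3' : (a' - b') * c' + b' * d' = x) :
    (a' = a ∧ b' = b) ∨ (a' = -a ∧ b' = -b) ∨ (a' = -b ∧ b' = a - b) ∨
    (a' = b ∧ b' = b - a) ∨ (a' = a - b ∧ b' = a) ∨ (a' = b - a ∧ b' = -a) := by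
  obtain ⟨s, t, hst, ha, hb⟩ := mult_unit a b c d a' b' c' d' x n hn h1 h1' h2 h2' h3 h3'
  rcases units_cases s t hst with ⟨h, h'⟩ | ⟨h, h'⟩ | ⟨h, h'⟩ | ⟨h, h'⟩ | ⟨h, h'⟩ | ⟨h, h'⟩ <;>
    subst h <;> subst h' <;> simp only [mul_zero, mul_one, mul_neg] at ha hb <;> omega

/-- The second vector is determined by the first one and `x`. -/
theorem second_unique (a b c d c' d' x : ℤ)
    (h2 : a * d - b * c = 1) (h2' : a * d' - b * c' = 1)
    (h3 : (a - b) * c + b * d = x) (h3' : (a - b) * c' + b * d' = x) :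
    c' = c ∧ d' = d := by
  have hN : a ^ 2 - a * b + b ^ 2 ≠ 0 := by
    intro h0
    have ha : a = 0 := by nlinarith [sq_nonneg (2 * b - a), sq_nonneg a]
    have hb : b = 0 := by nlinarith [sq_nonneg (2 * a - b), sq_nonneg b]
    subst ha; subst hb; simp at h2
  constructor
  · have : (a ^ 2 - a * b + b ^ 2) * c' = (a ^ 2 - a * b + b ^ 2) * c := by
      linear_combination a * h3' - b * h2' - a * h3 + b * h2
    exact mul_left_cancel₀ hN this
  · have : (a ^ 2 - a * b + b ^ 2) * d' = (a ^ 2 - a * b + b ^ 2) * d := by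
      linear_combination (a - b) * h2' + b * h3' - (a - b) * h2 - b * h3
    exact mul_left_cancel₀ hN this

end Pool.Agent.H56.EisMult
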