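import Mathlib

/-!
Combinatorial core of the averaging argument for the Erdős–Lovász–Simmons–Straus conjecture:
an antisymmetric orientation function on a finite set of points and a graph on the points.
-/

open Finset

namespace Pool.Agent.H56.Elss

variable {α : Type*} [DecidableEq α]

/-- Key counting lemma for lines through `q`: among the pairs `b ≠ p` in `B`, at least about a
quarter is such that the line `q p` separates `a` from `b`. -/
lemma key (s : α → α → α → Bool)
    (hs : ∀ q x y, q ≠ x → q ≠ y → x ≠ y → s q x y = !(s q y x))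
    (q a : α) (B : Finset α) (hq : q ∉ B) (ha : a ∉ B) (hqa : q ≠ a) :
    (B.card : ℤ) * ((B.card : ℤ) - 2) ≤
      4 * ((B.offDiag.filter (fun z => s q z.2 a ≠ s q z.2 z.1)).card : ℤ) := by
  set P : α × α → Prop := fun z => s q z.2 a ≠ s q z.2 z.1 with hP
  set L := B.filter (fun b => s q a b = true) with hL
  set R := B.filter (fun b => s q a b = false) with hR
  have hdisj : Disjoint L.offDiag R.offDiag := by
    rw [Finset.disjoint_left]
    rintro ⟨x, y⟩ h1 h2
    rw [mem_offDiag] at h1 h2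
    have h3 := (mem_filter.1 h1.1).2
    have h4 := (mem_filter.1 h2.1).2
    simp_all
  have hswap : (B.offDiag.filter (fun z => P z.swap)).card = (B.offDiag.filter P).card := by
    apply Finset.card_bij (fun z _ => z.swap)
    · rintro ⟨x, y⟩ h
      rw [mem_filter, mem_offDiag] at h ⊢
      exact ⟨⟨h.1.2.1, h.1.1, fun h' => h.1.2.2 h'.symm⟩, h.2⟩
    · rintro ⟨x, y⟩ _ ⟨x', y'⟩ _ h
      simpa [Prod.ext_iff, and_comm] using h
    · rintro ⟨x, y⟩ h
      refine ⟨(y, x), ?_, rfl⟩
      rw [mem_filter, mem_offDiag] at h ⊢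
      exact ⟨⟨h.1.2.1, h.1.1, fun h' => h.1.2.2 h'.symm⟩, h.2⟩
  have hsub : L.offDiag ∪ R.offDiag ⊆ B.offDiag.filter P ∪ B.offDiag.filter (fun z => P z.swap) := by
    rintro ⟨b, p⟩ h
    have hc : ∃ c : Bool, b ∈ B ∧ p ∈ B ∧ b ≠ p ∧ s q a b = c ∧ s q a p = c := by
      rw [mem_union, mem_offDiag, mem_offDiag] at h
      rcases h with ⟨h1, h2, h3⟩ | ⟨h1, h2, h3⟩
      · exact ⟨true, (mem_filter.1 h1).1, (mem_filter.1 h2).1, h3, (mem_filter.1 h1).2,
          (mem_filter.1 h2).2⟩
      · exact ⟨false, (mem_filter.1 h1).1, (mem_filter.1 h2).1, h3, (mem_filter.1 h1).2,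
          (mem_filter.1 h2).2⟩
    obtain ⟨c, hb, hp, hbp, hcb, hcp⟩ := hc
    have hab : a ≠ b := fun h => ha (h ▸ hb)
    have hap : a ≠ p := fun h => ha (h ▸ hp)
    have hqb : q ≠ b := fun h => hq (h ▸ hb)
    have hqp : q ≠ p := fun h => hq (h ▸ hp)
    have e1 := hs q a b hqa hqb hab
    have e2 := hs q a p hqa hqp hap
    have e3 := hs q b p hqb hqp hbp
    rw [mem_union, mem_filter, mem_filter, mem_offDiag]
    by_cases h : P (b, p)
    · exact Or.inl ⟨⟨hb, hp, hbp⟩, h⟩
    · refine Or.inr ⟨⟨hb, hp, hbp⟩, ?_⟩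
      simp only [hP, Prod.swap_prod_mk] at h ⊢
      rw [hcb] at e1
      rw [hcp] at e2
      clear hswap hdisj
      generalize s q b p = x1 at *
      generalize s q p b = x2 at *
      generalize s q b a = x3 at *
      generalize s q p a = x4 at *
      clear hcb hcp
      revert e1 e2 e3 h
      revert c x1 x2 x3 x4
      decide
  have h1 : (L.offDiag ∪ R.offDiag).card ≤ 2 * (B.offDiag.filter P).card := by
    calc (L.offDiag ∪ R.offDiag).card ≤ _ := card_le_card hsub
      _ ≤ (B.offDiag.filter P).card + (B.offDiag.filter (fun z => P z.swap)).card :=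
          card_union_le _ _
      _ = 2 * (B.offDiag.filter P).card := by rw [hswap]; ring
  rw [card_union_of_disjoint hdisj, offDiag_card, offDiag_card] at h1
  have h2 : L.card + R.card = B.card := by
    have := Finset.card_filter_add_card_filter_not (s := B) (fun b => s q a b = true)
    rw [← this]
    congr 2
    ext b
    simp [hR]
  have h3 : L.card ≤ L.card * L.card := Nat.le_mul_self _
  have h4 : R.card ≤ R.card * R.card := Nat.le_mul_self _
  zify [h3, h4] at h1 h2
  rw [← h2]
  nlinarith [sq_nonneg ((L.card : ℤ) - R.card)]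


variable [Fintype α]

/-- pairs of points touching a given pair -/
lemma card_touch (a b : α) (hab : a ≠ b) :
    (((univ : Finset (α × α)).filter (fun z => z.1 ≠ z.2 ∧
      (a = z.1 ∨ a = z.2 ∨ b = z.1 ∨ b = z.2))).card : ℤ) = 4 * (Fintype.card α : ℤ) - 6 := by
  have h1 : (univ : Finset α).offDiag = (univ : Finset (α × α)).filter (fun z => z.1 ≠ z.2 ∧
      (a = z.1 ∨ a = z.2 ∨ b = z.1 ∨ b = z.2)) ∪ ((univ : Finset α) \ {a, b}).offDiag := by
    ext ⟨x, y⟩
    simp only [mem_offDiag, mem_univ, true_and, mem_union, mem_filter, mem_sdiff, mem_insert,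
      mem_singleton]
    constructor
    · intro h
      by_cases h2 : a = x ∨ a = y ∨ b = x ∨ b = y
      · exact Or.inl ⟨h, h2⟩
      · push Not at h2
        refine Or.inr ⟨?_, ?_, h⟩
        · rintro (h3 | h3)
          · exact h2.1 h3.symm
          · exact h2.2.2.1 h3.symm
        · rintro (h3 | h3)
          · exact h2.2.1 h3.symm
          · exact h2.2.2.2 h3.symm
    · rintro (h | h)
      · exact h.1
      · exact h.2.2
  have h2 : Disjoint ((univ : Finset (α × α)).filter (fun z => z.1 ≠ z.2 ∧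
      (a = z.1 ∨ a = z.2 ∨ b = z.1 ∨ b = z.2))) (((univ : Finset α) \ {a, b}).offDiag) := by
    rw [Finset.disjoint_left]
    rintro ⟨x, y⟩ h h'
    rw [mem_filter] at h
    rw [mem_offDiag, mem_sdiff, mem_sdiff, mem_insert, mem_singleton, mem_insert,
      mem_singleton] at h'
    rcases h.2.2 with h3 | h3 | h3 | h3
    · exact h'.1.2 (Or.inl h3.symm)
    · exact h'.2.1.2 (Or.inl h3.symm)
    · exact h'.1.2 (Or.inr h3.symm)
    · exact h'.2.1.2 (Or.inr h3.symm)
  have h3 := congrArg Finset.card h1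
  rw [card_union_of_disjoint h2, offDiag_card, offDiag_card, card_univ] at h3
  have h4 : ((univ : Finset α) \ {a, b}).card = Fintype.card α - 2 := by
    rw [card_sdiff_of_subset (subset_univ _), card_pair hab, card_univ]
  have h5 : 2 ≤ Fintype.card α := by
    rw [← card_pair hab, ← card_univ]
    exact card_le_card (subset_univ _)
  rw [h4] at h3
  obtain ⟨k, hk⟩ := Nat.exists_eq_add_of_le h5
  rw [hk] at h3 ⊢
  have h6 : 2 + k - 2 = k := by omega
  rw [h6] at h3
  have h7 : k ≤ k * k := Nat.le_mul_self _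
  have h8 : 2 + k ≤ (2 + k) * (2 + k) := Nat.le_mul_self _
  zify [h7, h8] at h3 ⊢
  linarith

/-- separated pairs for a fixed vertex `a` with neighbourhood `N`. -/
lemma sep_lower (s : α → α → α → Bool)
    (hs : ∀ q x y, q ≠ x → q ≠ y → x ≠ y → s q x y = !(s q y x))
    (hs' : ∀ q x y, q ≠ x → q ≠ y → x ≠ y → s q x y = !(s x q y))
    (a : α) (N : Finset α) (ha : a ∉ N) :
    2 * ((Fintype.card α : ℤ) - 1 - N.card) * (N.card * (N.card - 2)) +
      N.card * ((N.card - 1) * (N.card - 3)) ≤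
    4 * ∑ q : α, ∑ p : α, ((N.filter (fun b => b ≠ q ∧ b ≠ p ∧ q ≠ p ∧ q ≠ a ∧ p ≠ a ∧
      s q p a ≠ s q p b)).card : ℤ) := by
  set g : α → α → ℤ := fun q p => ((N.filter (fun b => b ≠ q ∧ b ≠ p ∧ q ≠ p ∧ q ≠ a ∧ p ≠ a ∧
      s q p a ≠ s q p b)).card : ℤ) with hg
  have hg0 : ∀ q p, 0 ≤ g q p := fun q p => by positivity
  have hsymm : ∀ q p, g q p = g p q := by
    intro q p
    simp only [hg]
    congr 2
    apply filter_congr
    intro b _
    constructor
    · rintro ⟨h1, h2, h3, h4, h5, h6⟩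
      refine ⟨h2, h1, h3.symm, h5, h4, ?_⟩
      rw [hs' q p a h3 h4 h5, hs' q p b h3 h1.symm h2.symm] at h6
      intro h7
      exact h6 (by rw [h7])
    · rintro ⟨h1, h2, h3, h4, h5, h6⟩
      refine ⟨h2, h1, h3.symm, h5, h4, ?_⟩
      rw [hs' p q a h3 h4 h5, hs' p q b h3 h1.symm h2.symm] at h6
      intro h7
      exact h6 (by rw [h7])
  set C : Finset α := (univ \ N).erase a with hC
  have hCN : Disjoint C N := by
    rw [Finset.disjoint_left]
    intro x hx
    exact (mem_sdiff.1 (mem_erase.1 hx).2).2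
  have hCc : (C.card : ℤ) = (Fintype.card α : ℤ) - 1 - N.card := by
    have h1 : C.card + 1 = (univ \ N).card := by
      rw [hC]; exact card_erase_add_one (by simp [ha])
    have h2 : (univ \ N).card + N.card = Fintype.card α := by
      rw [card_sdiff_add_card_eq_card (subset_univ _), card_univ]
    zify at h1 h2
    linarith
  have hrow : ∀ q : α, ∑ p ∈ C, g q p + ∑ p ∈ N, g q p ≤ ∑ p : α, g q p := by
    intro q
    rw [← sum_union hCN]
    exact sum_le_sum_of_subset_of_nonneg (subset_univ _) (fun p _ _ => hg0 q p)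
  have htot : ∑ q ∈ C, ∑ p ∈ N, g q p + (∑ q ∈ N, ∑ p ∈ C, g q p + ∑ q ∈ N, ∑ p ∈ N, g q p)
      ≤ ∑ q : α, ∑ p : α, g q p := by
    calc _ ≤ ∑ q ∈ C, (∑ p ∈ C, g q p + ∑ p ∈ N, g q p) +
          ∑ q ∈ N, (∑ p ∈ C, g q p + ∑ p ∈ N, g q p) := by
          rw [sum_add_distrib (s := C), sum_add_distrib (s := N)]
          have : 0 ≤ ∑ q ∈ C, ∑ p ∈ C, g q p :=
            sum_nonneg (fun q _ => sum_nonneg (fun p _ => hg0 q p))
          linarith
      _ ≤ ∑ q ∈ C, ∑ p : α, g q p + ∑ q ∈ N, ∑ p : α, g q p :=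
          add_le_add (sum_le_sum fun q _ => hrow q) (sum_le_sum fun q _ => hrow q)
      _ ≤ ∑ q : α, ∑ p : α, g q p := by
          rw [← sum_union hCN]
          exact sum_le_sum_of_subset_of_nonneg (subset_univ _)
            (fun q _ _ => sum_nonneg fun p _ => hg0 q p)
  have hsw : ∑ q ∈ N, ∑ p ∈ C, g q p = ∑ q ∈ C, ∑ p ∈ N, g q p := by
    rw [sum_comm]
    exact sum_congr rfl fun q _ => sum_congr rfl fun p _ => hsymm _ _
  -- rows
  have hrowB : ∀ q : α, q ≠ a → ∀ B ⊆ N, q ∉ B →
      ((B.offDiag.filter (fun z => s q z.2 a ≠ s q z.2 z.1)).card : ℤ) ≤ ∑ p ∈ N, g q p := by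
    intro q hqa B hB hqB
    have h1 : ((B.offDiag.filter (fun z => s q z.2 a ≠ s q z.2 z.1)).card : ℤ) =
        ∑ p ∈ B, ((B.filter (fun b => b ≠ p ∧ s q p a ≠ s q p b)).card : ℤ) := by
      rw [← Nat.cast_sum]
      congr 1
      rw [← card_sigma]
      apply card_bij (fun z _ => ⟨z.2, z.1⟩)
      · rintro ⟨x, y⟩ h
        rw [mem_filter, mem_offDiag] at h
        rw [mem_sigma, mem_filter]
        exact ⟨h.1.2.1, h.1.1, h.1.2.2, h.2⟩
      · rintro ⟨x, y⟩ _ ⟨x', y'⟩ _ h
        simp only [Sigma.mk.injEq, heq_eq_eq] at h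
        exact Prod.ext h.2 h.1
      · rintro ⟨y, x⟩ h
        rw [mem_sigma, mem_filter] at h
        refine ⟨(x, y), ?_, rfl⟩
        rw [mem_filter, mem_offDiag]
        exact ⟨⟨h.2.1, h.1, h.2.2.1⟩, h.2.2.2⟩
    rw [h1]
    calc ∑ p ∈ B, ((B.filter (fun b => b ≠ p ∧ s q p a ≠ s q p b)).card : ℤ)
        ≤ ∑ p ∈ B, g q p := by
          apply sum_le_sum
          intro p hp
          simp only [hg]
          norm_cast
          apply card_le_card
          intro b hb
          rw [mem_filter] at hb ⊢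
          exact ⟨hB hb.1, fun h => hqB (h ▸ hb.1), hb.2.1, fun h => hqB (h ▸ hp), hqa,
            fun h => ha (h ▸ hB hp), hb.2.2⟩
      _ ≤ ∑ p ∈ N, g q p := sum_le_sum_of_subset_of_nonneg hB (fun p _ _ => hg0 q p)
  have hCrow : ∀ q ∈ C, ((N.card : ℤ) * (N.card - 2)) ≤ 4 * ∑ p ∈ N, g q p := by
    intro q hq
    have hqa : q ≠ a := (mem_erase.1 hq).1
    have hqN : q ∉ N := (mem_sdiff.1 (mem_erase.1 hq).2).2
    have h1 := key s hs q a N hqN ha hqa
    have h2 := hrowB q hqa N (Subset.refl _) hqN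
    linarith
  have hNrow : ∀ q ∈ N, (((N.card : ℤ) - 1) * (N.card - 3)) ≤ 4 * ∑ p ∈ N, g q p := by
    intro q hq
    have hqa : q ≠ a := fun h => ha (h ▸ hq)
    have h1 := key s hs q a (N.erase q) (notMem_erase q N) (fun h => ha (mem_of_mem_erase h)) hqa
    have h2 := hrowB q hqa (N.erase q) (erase_subset _ _) (notMem_erase q N)
    have h3 : (((N.erase q).card : ℕ) : ℤ) = N.card - 1 := by
      have := card_erase_add_one hq
      zify at this
      linarith
    rw [h3] at h1
    have h4 : ((N.card : ℤ) - 1) * (N.card - 3) = ((N.card : ℤ) - 1) * (N.card - 1 - 2) := by ring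
    rw [h4]
    linarith
  have hC1 : (C.card : ℤ) * ((N.card : ℤ) * (N.card - 2)) ≤ 4 * ∑ q ∈ C, ∑ p ∈ N, g q p := by
    rw [mul_sum, ← nsmul_eq_mul, ← sum_const]
    exact sum_le_sum hCrow
  have hN1 : (N.card : ℤ) * (((N.card : ℤ) - 1) * (N.card - 3)) ≤
      4 * ∑ q ∈ N, ∑ p ∈ N, g q p := by
    rw [mul_sum, ← nsmul_eq_mul, ← sum_const]
    exact sum_le_sum hNrow
  rw [hsw] at htot
  rw [← hCc]
  linarith

/-- Averaging over all lines through two points. -/
theorem comb_main (G : SimpleGraph α) [DecidableRel G.Adj] (s : α → α → α → Bool)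
    (hs : ∀ q x y, q ≠ x → q ≠ y → x ≠ y → s q x y = !(s q y x))
    (hs' : ∀ q x y, q ≠ x → q ≠ y → x ≠ y → s q x y = !(s x q y)) (M : ℤ)
    (hM : ∀ q p : α, q ≠ p → (((univ : Finset (α × α)).filter (fun z => G.Adj z.1 z.2 ∧
      (z.1 = q ∨ z.1 = p ∨ z.2 = q ∨ z.2 = p ∨ s q p z.1 ≠ s q p z.2))).card : ℤ) ≤ 2 * M) :
    ∑ a : α, (-(G.degree a : ℤ) ^ 3 + 2 * ((Fintype.card α : ℤ) - 1) * (G.degree a : ℤ) ^ 2 +
      (12 * (Fintype.card α : ℤ) - 17) * (G.degree a : ℤ)) ≤
      8 * (Fintype.card α : ℤ) * ((Fintype.card α : ℤ) - 1) * M := by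
  classical
  -- for fixed `q`, `p`: darts met by the line `q p`
  let D : α → α → α → Finset α := fun q p a => (G.neighborFinset a).filter (fun b => q ≠ p ∧
    (a = q ∨ a = p ∨ b = q ∨ b = p ∨ s q p a ≠ s q p b))
  have hup : ∀ q p : α, ∑ a : α, ((D q p a).card : ℤ) ≤ if q = p then 0 else 2 * M := by
    intro q p
    split_ifs with h
    · apply le_of_eq
      apply sum_eq_zero
      intro a _
      simp [D, h]
    · refine le_trans (le_of_eq ?_) (hM q p h)
      rw [← Nat.cast_sum, ← card_sigma]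
      congr 1
      apply card_bij (fun z _ => (z.1, z.2))
      · rintro ⟨x, y⟩ hz
        simp only [D, mem_sigma, mem_univ, true_and, mem_filter, SimpleGraph.mem_neighborFinset]
          at hz
        simp only [mem_filter, mem_univ, true_and]
        exact ⟨hz.1, hz.2.2⟩
      · rintro ⟨x, y⟩ _ ⟨x', y'⟩ _ h'
        simp only [Prod.mk.injEq] at h'
        obtain ⟨rfl, rfl⟩ := h'
        rfl
      · rintro ⟨x, y⟩ hz
        simp only [mem_filter, mem_univ, true_and] at hz
        refine ⟨⟨x, y⟩, ?_, rfl⟩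
        simp only [D, mem_sigma, mem_univ, true_and, mem_filter, SimpleGraph.mem_neighborFinset]
        exact ⟨hz.1, h, hz.2⟩
  have hupper : ∑ q : α, ∑ p : α, ∑ a : α, ((D q p a).card : ℤ) ≤
      (Fintype.card α : ℤ) * ((Fintype.card α : ℤ) - 1) * (2 * M) := by
    calc _ ≤ ∑ q : α, ∑ p : α, (if q = p then 0 else 2 * M) :=
          sum_le_sum fun q _ => sum_le_sum fun p _ => hup q p
      _ = ∑ q : α, ((Fintype.card α : ℤ) - 1) * (2 * M) := by
          apply sum_congr rfl
          intro q _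
          have : ∀ p : α, (if q = p then 0 else 2 * M) = 2 * M - if q = p then 2 * M else 0 := by
            intro p; split_ifs <;> ring
          rw [sum_congr rfl (fun p _ => this p), sum_sub_distrib]
          simp
          ring
      _ = _ := by
          rw [sum_const, card_univ, nsmul_eq_mul]; ring
  have hlow : ∀ a : α, (-(G.degree a : ℤ) ^ 3 + 2 * ((Fintype.card α : ℤ) - 1) *
      (G.degree a : ℤ) ^ 2 + (12 * (Fintype.card α : ℤ) - 17) * (G.degree a : ℤ)) ≤
      4 * ∑ q : α, ∑ p : α, ((D q p a).card : ℤ) := by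
    intro a
    have hsep := sep_lower s hs hs' a (G.neighborFinset a) (by simp)
    have h1 : ∀ q p : α, ((((G.neighborFinset a).filter (fun b => q ≠ p ∧
        (a = q ∨ a = p ∨ b = q ∨ b = p))).card : ℤ) +
        (((G.neighborFinset a).filter (fun b => b ≠ q ∧ b ≠ p ∧ q ≠ p ∧ q ≠ a ∧ p ≠ a ∧
          s q p a ≠ s q p b)).card : ℤ)) ≤ ((D q p a).card : ℤ) := by
      intro q p
      norm_cast
      rw [← card_union_of_disjoint]
      · apply card_le_card
        intro b hb
        rw [mem_union, mem_filter, mem_filter] at hb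
        simp only [D, mem_filter]
        rcases hb with hb | hb
        · refine ⟨hb.1, hb.2.1, ?_⟩
          rcases hb.2.2 with h | h | h | h
          · exact Or.inl h
          · exact Or.inr (Or.inl h)
          · exact Or.inr (Or.inr (Or.inl h))
          · exact Or.inr (Or.inr (Or.inr (Or.inl h)))
        · exact ⟨hb.1, hb.2.2.2.1, Or.inr (Or.inr (Or.inr (Or.inr hb.2.2.2.2.2.2)))⟩
      · rw [Finset.disjoint_left]
        intro b hb hb'
        rw [mem_filter] at hb hb'
        rcases hb.2.2 with h | h | h | h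
        · exact hb'.2.2.2.2.1 h.symm
        · exact hb'.2.2.2.2.2.1 h.symm
        · exact hb'.2.1 h
        · exact hb'.2.2.1 h
    have h2 : ∑ q : α, ∑ p : α, (((G.neighborFinset a).filter (fun b => q ≠ p ∧
        (a = q ∨ a = p ∨ b = q ∨ b = p))).card : ℤ) =
        (G.degree a : ℤ) * (4 * (Fintype.card α : ℤ) - 6) := by
      have h3 : ∀ b ∈ G.neighborFinset a, (∑ q : α, ∑ p : α, if (q ≠ p ∧
        (a = q ∨ a = p ∨ b = q ∨ b = p)) then (1 : ℤ) else 0) = 4 * (Fintype.card α : ℤ) - 6 := by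
        intro b hb
        have hab : a ≠ b := by
          intro h
          rw [← h] at hb
          simp at hb
        rw [← card_touch a b hab, ← Fintype.sum_prod_type', card_filter]
        push_cast
        rfl
      calc _ = ∑ q : α, ∑ p : α, ∑ b ∈ G.neighborFinset a, (if (q ≠ p ∧
            (a = q ∨ a = p ∨ b = q ∨ b = p)) then (1 : ℤ) else 0) := by
            apply sum_congr rfl; intro q _
            apply sum_congr rfl; intro p _
            rw [card_filter]
            push_cast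
            rfl
        _ = ∑ b ∈ G.neighborFinset a, ∑ q : α, ∑ p : α, (if (q ≠ p ∧
            (a = q ∨ a = p ∨ b = q ∨ b = p)) then (1 : ℤ) else 0) := by
            rw [sum_comm (s := G.neighborFinset a)]
            apply sum_congr rfl; intro q _
            rw [sum_comm (s := G.neighborFinset a)]
        _ = _ := by
            rw [sum_congr rfl h3, sum_const, nsmul_eq_mul, SimpleGraph.card_neighborFinset_eq_degree]
    have h4 := sum_le_sum fun q (_ : q ∈ univ) => sum_le_sum fun p (_ : p ∈ univ) => h1 q p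
    simp only [sum_add_distrib] at h4
    rw [h2] at h4
    rw [SimpleGraph.card_neighborFinset_eq_degree] at hsep
    linarith [hsep, h4]
  have h5 := sum_le_sum fun a (_ : a ∈ univ) => hlow a
  have h6 : ∑ a : α, 4 * ∑ q : α, ∑ p : α, ((D q p a).card : ℤ) =
      4 * ∑ q : α, ∑ p : α, ∑ a : α, ((D q p a).card : ℤ) := by
    rw [← mul_sum, sum_comm]
    congr 1
    apply sum_congr rfl
    intro q _
    rw [sum_comm]
  rw [h6] at h5
  linarith

end Pool.Agent.H56.Elss
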