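import Mathlib
import Pool.Agent.H68.GeomHyp
import Pool.Agent.H56.ElssComb

/-!
Geometric part of the averaging argument: planar geometric graphs and lines through two vertices.
-/

open Finset Module
open Pool.Agent.H68

namespace Pool.Agent.H56.Elss

/-- orientation determinant of the triple `q, x, y`. -/
def det2 (q x y : Pt 2) : ℝ := (x 0 - q 0) * (y 1 - q 1) - (x 1 - q 1) * (y 0 - q 0)

lemma det2_swap (q x y : Pt 2) : det2 q x y = - det2 q y x := by
  unfold det2; ring

lemma det2_swap' (q x y : Pt 2) : det2 q x y = - det2 x q y := by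
  unfold det2; ring

lemma pt2_ext {x y : Pt 2} (h0 : x 0 = y 0) (h1 : x 1 = y 1) : x = y := by
  ext i; fin_cases i
  · exact h0
  · exact h1

lemma mem_line {q x y : Pt 2} (hqx : q ≠ x) (h : det2 q x y = 0) : y ∈ line[ℝ, q, x] := by
  unfold det2 at h
  by_cases h0 : x 0 = q 0
  · have h1 : x 1 - q 1 ≠ 0 := by
      intro h1
      exact hqx (pt2_ext h0.symm (by linarith))
    have h2 : y 0 - q 0 = 0 := by
      rw [h0, sub_self, zero_mul, zero_sub, neg_eq_zero] at h
      exact (mul_eq_zero.1 h).resolve_left h1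
    have : y = AffineMap.lineMap q x ((y 1 - q 1) / (x 1 - q 1)) := by
      apply pt2_ext
      · simp [AffineMap.lineMap_apply, h0]; linarith
      · simp [AffineMap.lineMap_apply]; field_simp; ring
    rw [this]
    exact AffineMap.lineMap_mem_affineSpan_pair _ _ _
  · have h1 : x 0 - q 0 ≠ 0 := sub_ne_zero.2 h0
    have : y = AffineMap.lineMap q x ((y 0 - q 0) / (x 0 - q 0)) := by
      apply pt2_ext
      · simp [AffineMap.lineMap_apply]; field_simp; ring
      · simp [AffineMap.lineMap_apply]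
        field_simp
        linarith
    rw [this]
    exact AffineMap.lineMap_mem_affineSpan_pair _ _ _

lemma finrank_line {q x : Pt 2} (hqx : q ≠ x) : finrank ℝ (line[ℝ, q, x]).direction = 1 := by
  rw [direction_affineSpan, vectorSpan_pair]
  exact finrank_span_singleton (by simpa [vsub_eq_sub, sub_eq_zero] using hqx)

lemma isFlat_line {q x : Pt 2} (hqx : q ≠ x) : IsFlat 1 (line[ℝ, q, x]) :=
  ⟨⟨q, left_mem_affineSpan_pair ℝ q x⟩, finrank_line hqx⟩

lemma det2_ne_zero (G : GeomHyp 2 2) {q x y : Pt 2} (hq : q ∈ G.V) (hx : x ∈ G.V) (hy : y ∈ G.V)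
    (hqx : q ≠ x) (hqy : q ≠ y) (hxy : x ≠ y) : det2 q x y ≠ 0 := by
  classical
  intro h
  have h1 := G.genPos (line[ℝ, q, x]) (by rw [finrank_line hqx])
  have h2 : (({q, x, y} : Finset (Pt 2)) : Set (Pt 2)) ⊆ {z | z ∈ G.V ∧ z ∈ line[ℝ, q, x]} := by
    intro z hz
    simp only [coe_insert, coe_singleton, Set.mem_insert_iff, Set.mem_singleton_iff] at hz
    rcases hz with rfl | rfl | rfl
    · exact ⟨hq, left_mem_affineSpan_pair ℝ _ _⟩
    · exact ⟨hx, right_mem_affineSpan_pair ℝ _ _⟩
    · exact ⟨hy, mem_line hqx h⟩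
  have h3 := Set.ncard_le_ncard h2 (G.V.finite_toSet.subset (fun z hz => hz.1))
  rw [Set.ncard_coe_finset] at h3
  have h4 : ({q, x, y} : Finset (Pt 2)).card = 3 := by
    rw [card_eq_three]
    exact ⟨q, x, y, hqx, hqy, hxy, rfl⟩
  omega

lemma meets_of_sep {q p a b : Pt 2} (hqp : q ≠ p) (h : 0 < det2 q p a ∧ ¬ 0 < det2 q p b) :
    ((line[ℝ, q, p] : Set (Pt 2)) ∩ convexHull ℝ ({a, b} : Set (Pt 2))).Nonempty := by
  obtain ⟨ha, hb⟩ := h
  push Not at hb
  set t : ℝ := det2 q p a / (det2 q p a - det2 q p b) with ht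
  have hpos : 0 < det2 q p a - det2 q p b := by linarith
  have ht0 : 0 ≤ t := by positivity
  have ht1 : t ≤ 1 := by rw [ht, div_le_one hpos]; linarith
  refine ⟨(1 - t) • a + t • b, ?_, ?_⟩
  · apply mem_line hqp
    have h1 : det2 q p ((1 - t) • a + t • b) = (1 - t) * det2 q p a + t * det2 q p b := by
      unfold det2
      simp
      ring
    rw [h1, ht]
    field_simp
    ring
  · rw [convexHull_pair, segment_eq_image]
    exact ⟨t, ⟨ht0, ht1⟩, rfl⟩

/-- The graph on the vertex set. -/
def graph (G : GeomHyp 2 2) : SimpleGraph G.V where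
  Adj a b := a ≠ b ∧ ({a.1, b.1} : Finset (Pt 2)) ∈ G.E
  symm := ⟨fun a b h => ⟨h.1.symm, by rw [pair_comm]; exact h.2⟩⟩
  loopless := ⟨fun a h => h.1 rfl⟩

open Classical in
/-- the number of darts is twice the number of edges -/
lemma sum_degree (G : GeomHyp 2 2) : ∑ a : G.V, (graph G).degree a = 2 * G.E.card := by
  have h1 : ∀ a : G.V, (graph G).degree a = (G.E.filter (fun e => a.1 ∈ e)).card := by
    intro a
    rw [← SimpleGraph.card_neighborFinset_eq_degree]
    apply card_bij (fun b _ => ({a.1, b.1} : Finset (Pt 2)))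
    · intro b hb
      rw [SimpleGraph.mem_neighborFinset] at hb
      rw [mem_filter]
      exact ⟨hb.2, by simp⟩
    · intro b hb c hc h
      rw [SimpleGraph.mem_neighborFinset] at hb hc
      have h2 : c.1 ∈ ({a.1, b.1} : Finset (Pt 2)) := by rw [h]; simp
      rw [mem_insert, mem_singleton] at h2
      rcases h2 with h2 | h2
      · exact absurd (Subtype.ext h2).symm hc.1
      · exact (Subtype.ext h2).symm
    · intro e he
      rw [mem_filter] at he
      have hc := G.card_eq e he.1
      obtain ⟨x, y, hxy, rfl⟩ := card_eq_two.1 hc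
      have hsub := G.subV _ he.1
      have hxV : x ∈ G.V := hsub (by simp)
      have hyV : y ∈ G.V := hsub (by simp)
      have ha := he.2
      rw [mem_insert, mem_singleton] at ha
      rcases ha with ha | ha
      · refine ⟨⟨y, hyV⟩, ?_, ?_⟩
        · rw [SimpleGraph.mem_neighborFinset]
          refine ⟨fun h => hxy ?_, ?_⟩
          · rw [← ha, h]
          · show ({a.1, y} : Finset (Pt 2)) ∈ G.E
            rw [ha]; exact he.1
        · rw [ha]
      · refine ⟨⟨x, hxV⟩, ?_, ?_⟩
        · rw [SimpleGraph.mem_neighborFinset]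
          refine ⟨fun h => hxy ?_, ?_⟩
          · rw [← ha, h]
          · show ({a.1, x} : Finset (Pt 2)) ∈ G.E
            rw [ha, pair_comm]; exact he.1
        · show ({a.1, x} : Finset (Pt 2)) = _
          rw [ha, pair_comm]
  simp only [h1, card_filter]
  rw [sum_comm]
  have h2 : ∀ e ∈ G.E, (∑ a : G.V, if a.1 ∈ e then 1 else 0) = 2 := by
    intro e he
    have h0 := G.card_eq e he
    rw [Finset.sum_coe_sort G.V (fun a => if a ∈ e then 1 else 0), ← card_filter]
    refine Eq.trans ?_ h0
    congr 1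
    ext x
    rw [mem_filter]
    exact ⟨fun h => h.2, fun h => ⟨G.subV e he h, h⟩⟩
  rw [sum_congr rfl h2, sum_const, smul_eq_mul, mul_comm]

open Classical in
lemma degree_le (G : GeomHyp 2 2) (a : G.V) : (graph G).degree a + 1 ≤ G.V.card := by
  have := (graph G).degree_lt_card_verts a
  rw [Fintype.card_coe] at this
  omega

open Classical in
/-- The averaging inequality. -/
lemma main_ineq (G : GeomHyp 2 2) (M : ℕ)
    (hM : ∀ L : AffineSubspace ℝ (Pt 2), IsFlat 1 L → numMet G L ≤ M) :
    ∑ a : G.V, (-((graph G).degree a : ℤ) ^ 3 + 2 * ((G.V.card : ℤ) - 1) *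
      ((graph G).degree a : ℤ) ^ 2 + (12 * (G.V.card : ℤ) - 17) * ((graph G).degree a : ℤ)) ≤
      8 * (G.V.card : ℤ) * ((G.V.card : ℤ) - 1) * M := by
  have h := comb_main (graph G) (fun q x y => decide (0 < det2 q.1 x.1 y.1)) ?_ ?_ (M : ℤ) ?_
  · rw [Fintype.card_coe] at h
    exact h
  · intro q x y hqx hqy hxy
    have hne := det2_ne_zero G q.2 x.2 y.2 (fun h => hqx (Subtype.ext h))
      (fun h => hqy (Subtype.ext h)) (fun h => hxy (Subtype.ext h))
    rw [det2_swap]
    rw [det2_swap] at hne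
    rcases lt_or_gt_of_ne hne with h1 | h1
    · have h2 : 0 < det2 q.1 y.1 x.1 := by linarith
      simp [h2, h2.le]
    · have h2 : det2 q.1 y.1 x.1 < 0 := by linarith
      simp [h2, h2.le]
  · intro q x y hqx hqy hxy
    have hne := det2_ne_zero G q.2 x.2 y.2 (fun h => hqx (Subtype.ext h))
      (fun h => hqy (Subtype.ext h)) (fun h => hxy (Subtype.ext h))
    rw [det2_swap']
    rw [det2_swap'] at hne
    rcases lt_or_gt_of_ne hne with h1 | h1
    · have h2 : 0 < det2 x.1 q.1 y.1 := by linarith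
      simp [h2, h2.le]
    · have h2 : det2 x.1 q.1 y.1 < 0 := by linarith
      simp [h2, h2.le]
  · intro q p hqp
    have hqp' : q.1 ≠ p.1 := fun h => hqp (Subtype.ext h)
    refine le_trans ?_ (mul_le_mul_of_nonneg_left (Nat.cast_le.2 (hM _ (isFlat_line hqp'))) (by norm_num))
    norm_cast
    have hfin : {e : Finset (Pt 2) | e ∈ G.E ∧ Meets (line[ℝ, q.1, p.1]) e}.Finite :=
      G.E.finite_toSet.subset (fun e he => he.1)
    set S : Finset (G.V × G.V) := (univ : Finset (G.V × G.V)).filter
      (fun z => (graph G).Adj z.1 z.2 ∧ (z.1 = q ∨ z.1 = p ∨ z.2 = q ∨ z.2 = p ∨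
        decide (0 < det2 q.1 p.1 z.1.1) ≠ decide (0 < det2 q.1 p.1 z.2.1))) with hS
    have h1 := card_le_mul_card_image (f := fun z : G.V × G.V => ({z.1.1, z.2.1} : Finset (Pt 2)))
      S 2 ?_
    · refine h1.trans ?_
      apply Nat.mul_le_mul_left
      rw [← Set.ncard_coe_finset]
      apply Set.ncard_le_ncard _ hfin
      intro e he
      rw [mem_coe, mem_image] at he
      obtain ⟨z, hz, rfl⟩ := he
      rw [hS, mem_filter] at hz
      refine ⟨hz.2.1.2, ?_⟩
      have hqL : q.1 ∈ line[ℝ, q.1, p.1] := left_mem_affineSpan_pair ℝ _ _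
      have hpL : p.1 ∈ line[ℝ, q.1, p.1] := right_mem_affineSpan_pair ℝ _ _
      have hl : z.1.1 ∈ convexHull ℝ ((({z.1.1, z.2.1} : Finset (Pt 2))) : Set (Pt 2)) :=
        subset_convexHull ℝ _ (by simp)
      have hr : z.2.1 ∈ convexHull ℝ ((({z.1.1, z.2.1} : Finset (Pt 2))) : Set (Pt 2)) :=
        subset_convexHull ℝ _ (by simp)
      rcases hz.2.2 with h | h | h | h | h
      · exact ⟨z.1.1, by rw [h]; exact hqL, hl⟩
      · exact ⟨z.1.1, by rw [h]; exact hpL, hl⟩
      · exact ⟨z.2.1, by rw [h]; exact hqL, hr⟩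
      · exact ⟨z.2.1, by rw [h]; exact hpL, hr⟩
      · unfold Meets
        rw [coe_insert, coe_singleton]
        by_cases hp1 : 0 < det2 q.1 p.1 z.1.1
        · by_cases hp2 : 0 < det2 q.1 p.1 z.2.1
          · simp [hp1, hp2] at h
          · exact meets_of_sep hqp' ⟨hp1, hp2⟩
        · by_cases hp2 : 0 < det2 q.1 p.1 z.2.1
          · rw [Set.pair_comm z.1.1 z.2.1]
            exact meets_of_sep hqp' ⟨hp2, hp1⟩
          · simp [hp1, hp2] at h
    · intro e he
      rw [mem_image] at he
      obtain ⟨z, hz, rfl⟩ := he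
      have hzA := (mem_filter.1 hz).2.1
      calc _ ≤ ({z, z.swap} : Finset (G.V × G.V)).card := by
            apply card_le_card
            rintro ⟨x, y⟩ hw
            rw [mem_filter] at hw
            have hwA := (mem_filter.1 hw.1).2.1
            have h2 := hw.2
            simp only at h2
            have hx : x.1 ∈ ({z.1.1, z.2.1} : Finset (Pt 2)) := by rw [← h2]; simp
            have hy : y.1 ∈ ({z.1.1, z.2.1} : Finset (Pt 2)) := by rw [← h2]; simp
            rw [mem_insert, mem_singleton] at hx hy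
            rw [mem_insert, mem_singleton]
            rcases hx with hx | hx <;> rcases hy with hy | hy
            · exact absurd (Subtype.ext (hx.trans hy.symm)) hwA.1
            · exact Or.inl (Prod.ext (Subtype.ext hx) (Subtype.ext hy))
            · exact Or.inr (Prod.ext (Subtype.ext hx) (Subtype.ext hy))
            · exact absurd (Subtype.ext (hx.trans hy.symm)) hwA.1
        _ ≤ 2 := card_le_two

end Pool.Agent.H56.Elss
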